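import Mathlib
import Pool.Agent.H.MP_57d9fd_an.Defs
import Pool.Agent.H.MP_57d9fd_an.Syndetic

open Pool.Agent.H.MP_57d9fd_an

namespace Pool.Agent.Results.MP_57d9fd_an.PosDensity

/-- The Fourier support of a nonzero distribution on `Gr_k(ℝ^n)` with finite support has positive
lower density in the set `Λ_κ` of all highest weights, ordered by `|λ|`. -/
theorem result (n k : ℕ) (hk : k ≤ n) (T : GrDistribution n k) (hT : T.toFun ≠ 0)
    (F : Set (Matrix (Fin n) (Fin n) ℝ)) (hfin : F.Finite) (hFG : F ⊆ Gr n k)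
    (hsupp : T.SupportedIn F) :
    0 < Filter.liminf (fun m : ℕ =>
      (Set.ncard {lam : Fin (kap n k) → ℕ | lam ∈ fourierSupport T ∧ ∑ i, lam i ≤ 2 * m} : ℝ) /
        (Set.ncard {lam : Fin (kap n k) → ℕ | lam ∈ Lam (kap n k) ∧ ∑ i, lam i ≤ 2 * m} : ℝ))
      Filter.atTop := by
  obtain ⟨c, hc⟩ := syndetic hk T hfin.toFinset (fun x hx => hFG ((hfin.mem_toFinset).1 hx))
    (by rwa [hfin.coe_toFinset]) hT
  exact liminf_pos (fun lam h => h.1) c hc

end Pool.Agent.Results.MP_57d9fd_an.PosDensity
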